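import Pool.Agent.Lib_helper69.QG.Final
import Pool.Agent.Lib_helper69.HKL.FinalH

/-!
# Gaussian limit of the height: the quartic and the hammock surface

Let `U x = x ^ 4` or let `U` be the hammock potential, and let `φ` have the law `μ_{n,U}` on the
torus `T_n` pinned at `0`. Then the height at the vertex `(n, n)`, divided by its standard
deviation, converges in distribution to the standard Gaussian law. This answers Q1.
-/

set_option autoImplicit false

namespace Pool.Agent.Results.MP_5fc650_pr.GaussianLimit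

open MeasureTheory Filter Topology
open scoped ENNReal

/-- `exp (-u)`, with `exp (-∞) = 0`. -/
noncomputable def expNeg (u : ℝ≥0∞) : ℝ≥0∞ :=
  if u = ∞ then 0 else ENNReal.ofReal (Real.exp (-u.toReal))

/-- The vertices of the torus `T_n`. -/
abbrev Torus (n : ℕ) : Type := ZMod (2 * n) × ZMod (2 * n)

/-- `δ₀(dφ₀) ∏_{v ≠ 0} dφ_v` -/
noncomputable def base (n : ℕ) [NeZero n] : Measure (Torus n → ℝ) :=
  Measure.pi fun v => if v = 0 then Measure.dirac 0 else volume

/-- `exp (-∑ U (φ v - φ w))`, the sum over the edges of the torus. -/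
noncomputable def density (U : ℝ → ℝ≥0∞) (n : ℕ) [NeZero n] (φ : Torus n → ℝ) : ℝ≥0∞ :=
  expNeg (∑ v, (U (φ (v + (1, 0)) - φ v) + U (φ (v + (0, 1)) - φ v)))

/-- The random surface measure `μ_{n,U}` pinned at `0`. -/
noncomputable def mu (U : ℝ → ℝ≥0∞) (n : ℕ) [NeZero n] : Measure (Torus n → ℝ) :=
  (∫⁻ φ, density U n φ ∂base n)⁻¹ • (base n).withDensity (density U n)

/-- The quartic potential. -/
noncomputable def quartic (t : ℝ) : ℝ≥0∞ := ENNReal.ofReal (t ^ 4)

/-- The hammock potential. -/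
noncomputable def hammock (t : ℝ) : ℝ≥0∞ := open Classical in if |t| ≤ 1 then 0 else ∞

/-- The height at the vertex `(n, n)`. -/
def height (n : ℕ) (φ : Torus n → ℝ) : ℝ := φ ((n : ZMod (2 * n)), (n : ZMod (2 * n)))

theorem mu_quartic (n : ℕ) [NeZero n] : mu quartic n = QG.muT n := by
  have h : density quartic n = fun φ => ENNReal.ofReal (Real.exp (-QG.enT n φ)) := by
    funext φ
    have h1 : ∑ v, (quartic (φ (v + (1, 0)) - φ v) + quartic (φ (v + (0, 1)) - φ v)) =
        ENNReal.ofReal (QG.enT n φ) := by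
      unfold QG.enT quartic
      rw [ENNReal.ofReal_sum_of_nonneg fun v _ => by positivity]
      refine Finset.sum_congr rfl fun v _ => ?_
      rw [ENNReal.ofReal_add (by positivity) (by positivity)]
    rw [density, h1, expNeg, if_neg ENNReal.ofReal_ne_top, ENNReal.toReal_ofReal]
    exact Finset.sum_nonneg fun v _ => by positivity
  unfold mu QG.muT
  rw [h]
  rfl

theorem mu_hammock (n : ℕ) [NeZero n] : mu hammock n = HK.muHT n := by
  have h : density hammock n = HK.hamT n := by
    funext φ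
    unfold density HK.hamT
    by_cases hφ : ∀ v, |φ (v + (1, 0)) - φ v| ≤ 1 ∧ |φ (v + (0, 1)) - φ v| ≤ 1
    · rw [if_pos hφ]
      have h1 : ∑ v, (hammock (φ (v + (1, 0)) - φ v) + hammock (φ (v + (0, 1)) - φ v)) = 0 := by
        refine Finset.sum_eq_zero fun v _ => ?_
        simp [hammock, (hφ v).1, (hφ v).2]
      rw [h1]
      simp [expNeg]
    · rw [if_neg hφ]
      push Not at hφ
      obtain ⟨v, hv⟩ := hφ
      have h2 : hammock (φ (v + (1, 0)) - φ v) + hammock (φ (v + (0, 1)) - φ v) = ∞ := by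
        by_cases h3 : |φ (v + (1, 0)) - φ v| ≤ 1
        · have h4 := hv h3
          simp [hammock, not_le.2 h4]
        · simp [hammock, h3]
      have h1 : ∑ v, (hammock (φ (v + (1, 0)) - φ v) + hammock (φ (v + (0, 1)) - φ v)) = ∞ :=
        ENNReal.sum_eq_top.2 ⟨v, Finset.mem_univ _, h2⟩
      rw [h1]
      simp [expNeg]
  unfold mu HK.muHT
  rw [h]
  rfl

/-- For the quartic and for the hammock potential there are `a n > 0` with
`a n ^ 2 = E φ_(n,n) ^ 2` for large `n` and `a n ^ 2` of order `log n` such that `φ_(n,n) / a n`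
converges in distribution to the standard Gaussian law: the expectation of every bounded
continuous function converges. -/
theorem result (U : ℝ → ℝ≥0∞) (hU : U = quartic ∨ U = hammock) :
    ∃ (a : ℕ → ℝ) (N : ℕ) (c C : ℝ), (∀ n, 0 < a n) ∧ 0 < c ∧
      (∀ (n : ℕ) [NeZero n], N ≤ n → IsProbabilityMeasure (mu U n) ∧
        a n ^ 2 = ∫ φ, height n φ ^ 2 ∂mu U n) ∧
      (∀ n : ℕ, N ≤ n → c * Real.log n ≤ a n ^ 2 ∧ a n ^ 2 ≤ C * Real.log n) ∧
      ∀ f : BoundedContinuousFunction ℝ ℝ,
        Tendsto (fun n : ℕ => ∫ φ, f (height (n + 1) φ / a (n + 1)) ∂mu U (n + 1)) atTop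
          (𝓝 (∫ x, f x ∂ProbabilityTheory.gaussianReal 0 1)) := by
  rcases hU with rfl | rfl
  · obtain ⟨c, C, hc, _, h⟩ := QG.far_var
    refine ⟨QG.sdT, 256, c, C, QG.sdT_pos, hc, ?_, ?_, ?_⟩
    · intro n _ hn
      rw [mu_quartic]
      refine ⟨(QG.far_law n hn).1, ?_⟩
      rw [QG.sdT_eq n hn]
      exact Real.sq_sqrt (integral_nonneg fun φ => sq_nonneg _)
    · intro n hn
      haveI : NeZero n := ⟨by omega⟩
      rw [QG.sdT_eq n hn, Real.sq_sqrt (integral_nonneg fun φ => sq_nonneg _)]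
      exact h n hn
    · intro f
      simp only [mu_quartic]
      exact QG.far_clt f
  · obtain ⟨a, N, c, C, h1, h2, h3, h4, h5⟩ := HK.ham_clt
    refine ⟨a, N, c, C, h1, h2, ?_, h4, ?_⟩
    · intro n _ hn
      rw [mu_hammock]
      exact ⟨(HK.far_law_h n).1, h3 n hn⟩
    · intro f
      simp only [mu_hammock]
      exact h5 f

end Pool.Agent.Results.MP_5fc650_pr.GaussianLimit
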