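import Pool.Agent.Lib_helper14.HM.T5

/-!
# Upper bound for the height fluctuations on the torus pinned at one point

For every even convex potential `U : ℝ → [0, ∞]` (the quartic and the hammock potential included)
the height `φ x` of the random surface on the torus `{-n+1, …, n}²` pinned at `0` has variance at
most `C (log n)³`, with exponential tails on the scale `(log n)^(3/2)`.
-/

set_option autoImplicit false

namespace Pool.Agent.Results.MP_5fc650_pr.PinnedTorus

open MeasureTheory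
open scoped ENNReal

/-- Even convex potentials `U : ℝ → [0, ∞]`, normalised by `U 0 = 0`, finite somewhere away from
`0` and not identically `0`. -/
structure IsPotential (U : ℝ → ℝ≥0∞) : Prop where
  even : ∀ t, U (-t) = U t
  convex : ∀ (s t : ℝ) (a b : NNReal), a + b = 1 → U (a * s + b * t) ≤ a * U s + b * U t
  zero : U 0 = 0
  finite : ∃ a, 0 < a ∧ U a ≠ ∞
  nontrivial : ∃ b, U b ≠ 0

/-- `exp (-u)`, with `exp (-∞) = 0`. -/
noncomputable def expNeg (u : ℝ≥0∞) : ℝ≥0∞ :=
  if u = ∞ then 0 else ENNReal.ofReal (Real.exp (-u.toReal))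

/-- The vertices of the torus `T_n`. -/
abbrev Torus (n : ℕ) : Type := ZMod (2 * n) × ZMod (2 * n)

/-- `δ₀(dφ₀) ∏_{v ≠ 0} dφ_v` -/
noncomputable def base (n : ℕ) [NeZero n] : Measure (Torus n → ℝ) :=
  Measure.pi fun v => if v = 0 then Measure.dirac 0 else volume

/-- `exp (-∑ U (φ v - φ w))`, the sum over the edges of the torus. -/
noncomputable def density (U : ℝ → ℝ≥0∞) (n : ℕ) [NeZero n] (φ : Torus n → ℝ) : ℝ≥0∞ :=
  expNeg (∑ v, (U (φ (v + (1, 0)) - φ v) + U (φ (v + (0, 1)) - φ v)))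

/-- The random surface measure `μ_{n,U}` pinned at `0`. -/
noncomputable def mu (U : ℝ → ℝ≥0∞) (n : ℕ) [NeZero n] : Measure (Torus n → ℝ) :=
  (∫⁻ φ, density U n φ ∂base n)⁻¹ • (base n).withDensity (density U n)

/-- The quartic potential. -/
noncomputable def quartic (t : ℝ) : ℝ≥0∞ := ENNReal.ofReal (t ^ 4)

/-- The hammock potential. -/
noncomputable def hammock (t : ℝ) : ℝ≥0∞ := open Classical in if |t| ≤ 1 then 0 else ∞

theorem expNeg_zero : expNeg 0 = 1 := by simp [expNeg]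

theorem expNeg_add (a b : ℝ≥0∞) : expNeg (a + b) = expNeg a * expNeg b := by
  unfold expNeg
  by_cases ha : a = ∞
  · simp [ha]
  by_cases hb : b = ∞
  · simp [hb]
  have hab : a + b ≠ ∞ := ENNReal.add_ne_top.2 ⟨ha, hb⟩
  rw [if_neg ha, if_neg hb, if_neg hab, ENNReal.toReal_add ha hb, ← ENNReal.ofReal_mul
    (Real.exp_pos _).le, ← Real.exp_add]
  congr 2
  ring

theorem expNeg_sum {ι : Type} (s : Finset ι) (f : ι → ℝ≥0∞) :
    expNeg (∑ i ∈ s, f i) = ∏ i ∈ s, expNeg (f i) := by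
  classical
  induction s using Finset.induction_on with
  | empty => simp [expNeg_zero]
  | insert i s hi ih => rw [Finset.sum_insert hi, Finset.prod_insert hi, expNeg_add, ih]

/-- the edge weight of a potential -/
noncomputable def wgt (U : ℝ → ℝ≥0∞) (t : ℝ) : ℝ := (expNeg (U t)).toReal

theorem ofReal_wgt (U : ℝ → ℝ≥0∞) (t : ℝ) : ENNReal.ofReal (wgt U t) = expNeg (U t) := by
  refine ENNReal.ofReal_toReal ?_
  unfold expNeg
  split_ifs
  · exact ENNReal.zero_ne_top
  · exact ENNReal.ofReal_ne_top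

theorem wgt_top {U : ℝ → ℝ≥0∞} {t : ℝ} (h : U t = ∞) : wgt U t = 0 := by
  simp [wgt, expNeg, h]

theorem wgt_fin {U : ℝ → ℝ≥0∞} {t : ℝ} (h : U t ≠ ∞) : wgt U t = Real.exp (-(U t).toReal) := by
  rw [wgt, expNeg, if_neg h, ENNReal.toReal_ofReal (Real.exp_pos _).le]

theorem edge {U : ℝ → ℝ≥0∞} (hU : IsPotential U) : HM.EdgeWeight (wgt U) := by
  refine ⟨fun t => ENNReal.toReal_nonneg, by simp [wgt, hU.zero, expNeg_zero], fun t => by
    rw [wgt, wgt, hU.even], fun s t a b ha hb hab => ?_, ?_, ?_⟩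
  · by_cases ha0 : a = 0
    · subst ha0
      have hb1 : b = 1 := by linarith
      subst hb1
      simp
    by_cases hb0 : b = 0
    · subst hb0
      have ha1 : a = 1 := by linarith
      subst ha1
      simp
    have ha' : 0 < a := lt_of_le_of_ne ha (Ne.symm ha0)
    have hb' : 0 < b := lt_of_le_of_ne hb (Ne.symm hb0)
    by_cases hs : U s = ∞
    · rw [wgt_top hs, Real.zero_rpow ha0, zero_mul]; exact ENNReal.toReal_nonneg
    by_cases ht : U t = ∞
    · rw [wgt_top ht, Real.zero_rpow hb0, mul_zero]; exact ENNReal.toReal_nonneg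
    lift a to NNReal using ha
    lift b to NNReal using hb
    have hc := hU.convex s t a b (by exact_mod_cast hab)
    have hfin : (a : ℝ≥0∞) * U s + (b : ℝ≥0∞) * U t ≠ ∞ :=
      ENNReal.add_ne_top.2 ⟨ENNReal.mul_ne_top ENNReal.coe_ne_top hs,
        ENNReal.mul_ne_top ENNReal.coe_ne_top ht⟩
    have hst : U (a * s + b * t) ≠ ∞ := ne_top_of_le_ne_top hfin hc
    rw [wgt_fin hs, wgt_fin ht, wgt_fin hst, ← Real.exp_mul, ← Real.exp_mul, ← Real.exp_add]
    refine Real.exp_le_exp.2 ?_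
    have h1 := ENNReal.toReal_mono hfin hc
    rw [ENNReal.toReal_add (ENNReal.mul_ne_top ENNReal.coe_ne_top hs)
      (ENNReal.mul_ne_top ENNReal.coe_ne_top ht), ENNReal.toReal_mul, ENNReal.toReal_mul,
      ENNReal.coe_toReal, ENNReal.coe_toReal] at h1
    linarith
  · obtain ⟨a, ha, hfin⟩ := hU.finite
    exact ⟨a, ha, by rw [wgt_fin hfin]; exact Real.exp_pos _⟩
  · obtain ⟨b, hb⟩ := hU.nontrivial
    refine ⟨b, ?_⟩
    by_cases hfin : U b = ∞
    · rw [wgt_top hfin]; exact one_pos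
    · rw [wgt_fin hfin, Real.exp_lt_one_iff, neg_lt_zero]
      exact ENNReal.toReal_pos hb hfin

theorem isPotential_quartic : IsPotential quartic := by
  refine ⟨fun t => by simp [quartic, Even.neg_pow (by decide : Even 4)], fun s t a b hab => ?_,
    by simp [quartic], ⟨1, one_pos, by simp [quartic]⟩, ⟨1, by simp [quartic]⟩⟩
  have hab' : (a : ℝ) + b = 1 := by exact_mod_cast hab
  have hb : (b : ℝ) = 1 - a := by linarith
  have ha0 : (0 : ℝ) ≤ a := a.2
  have hb0 : (0 : ℝ) ≤ b := b.2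
  unfold quartic
  have e1 : (a : ℝ≥0∞) = ENNReal.ofReal a := by simp
  have e2 : (b : ℝ≥0∞) = ENNReal.ofReal b := by simp
  rw [e1, e2, ← ENNReal.ofReal_mul ha0, ← ENNReal.ofReal_mul hb0,
    ← ENNReal.ofReal_add (by positivity) (by positivity)]
  refine ENNReal.ofReal_le_ofReal ?_
  have hconv : ConvexOn ℝ Set.univ fun x : ℝ => x ^ 4 := (by decide : Even 4).convexOn_pow
  have := hconv.2 (Set.mem_univ s) (Set.mem_univ t) ha0 hb0 hab'
  simpa only [smul_eq_mul] using this

theorem isPotential_hammock : IsPotential hammock := by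
  refine ⟨fun t => by simp [hammock], fun s t a b hab => ?_, by simp [hammock],
    ⟨1, one_pos, by simp [hammock]⟩, ⟨2, by simp [hammock]⟩⟩
  have hab' : (a : ℝ) + b = 1 := by exact_mod_cast hab
  have ha0 : (0 : ℝ) ≤ a := a.2
  have hb0 : (0 : ℝ) ≤ b := b.2
  by_cases ha : a = 0
  · subst ha
    have : b = 1 := by simpa using hab
    subst this
    simp
  by_cases hb : b = 0
  · subst hb
    have : a = 1 := by simpa using hab
    subst this
    simp
  by_cases hs : |s| ≤ 1
  · by_cases ht : |t| ≤ 1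
    · have hst : |(a : ℝ) * s + b * t| ≤ 1 := by
        calc |(a : ℝ) * s + b * t| ≤ |(a : ℝ) * s| + |(b : ℝ) * t| := abs_add_le _ _
          _ = a * |s| + b * |t| := by rw [abs_mul, abs_mul, abs_of_nonneg ha0, abs_of_nonneg hb0]
          _ ≤ a * 1 + b * 1 := by gcongr
          _ = 1 := by linarith
      simp [hammock, hs, ht, hst]
    · have : hammock t = ∞ := by simp [hammock, ht]
      rw [this, ENNReal.mul_top (by simpa using hb)]
      simp
  · have : hammock s = ∞ := by simp [hammock, hs]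
    rw [this, ENNReal.mul_top (by simpa using ha)]
    simp

/-- **Result.** -/
theorem result :
    (∀ U : ℝ → ℝ≥0∞, IsPotential U → ∃ C : ℝ, 0 < C ∧ ∀ (n : ℕ) [NeZero n], 2 ≤ n →
      IsProbabilityMeasure (mu U n) ∧ ∀ x : Torus n,
        MemLp (fun φ : Torus n → ℝ => φ x) 2 (mu U n) ∧
        ∫ φ, φ x ∂mu U n = 0 ∧
        ProbabilityTheory.variance (fun φ : Torus n → ℝ => φ x) (mu U n) ≤ C * Real.log n ^ 3 ∧
        ∀ k : ℕ, mu U n {φ | k * (C * Real.log n ^ (3 / 2 : ℝ)) ≤ |φ x|} ≤ 2 * (2 / 5) ^ k) ∧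
    IsPotential hammock ∧ IsPotential quartic := by
  refine ⟨fun U hU => ?_, isPotential_hammock, isPotential_quartic⟩
  obtain ⟨C, hC, H⟩ := HM.main (edge hU)
  refine ⟨8 * C, by positivity, fun n _ hn => ?_⟩
  have hmu : mu U n = HM.gam (wgt U) (2 * n) := by
    rw [HM.gam_eq (edge hU)]
    have e1 : base n = Measure.pi (HM.vm (2 * n)) := by
      unfold base
      refine congrArg _ (funext fun v => ?_)
      by_cases hv : v = 0 <;> simp [HM.vm, hv]
    have e2 : density U n = HM.wT (wgt U) (2 * n) := by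
      funext φ
      unfold density HM.wT
      rw [expNeg_sum]
      refine Finset.prod_congr rfl fun v _ => ?_
      rw [expNeg_add, ofReal_wgt, ofReal_wgt]
    unfold mu
    rw [e1, e2]
  rw [hmu]
  obtain ⟨hp, hx⟩ := H (2 * n) (by omega)
  refine ⟨hp, fun x => ?_⟩
  obtain ⟨h1, h2, h3, h4⟩ := hx x
  have hlog0 : 0 < Real.log n := Real.log_pos (by exact_mod_cast (by omega : 1 < n))
  have hlog2 : 0 ≤ Real.log ((2 * n : ℕ) : ℝ) := Real.log_natCast_nonneg _
  have hlog : Real.log ((2 * n : ℕ) : ℝ) ≤ 2 * Real.log n := by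
    have hn0 : (0 : ℝ) < n := by positivity
    push_cast
    rw [Real.log_mul (by norm_num) hn0.ne']
    have : Real.log 2 ≤ Real.log n := Real.log_le_log (by norm_num) (by exact_mod_cast hn)
    linarith
  refine ⟨h1, h2, h3.trans ?_, fun k => le_trans (measure_mono ?_) (h4 k)⟩
  · calc C * Real.log ((2 * n : ℕ) : ℝ) ^ 3 ≤ C * (2 * Real.log n) ^ 3 := by gcongr
      _ = 8 * C * Real.log n ^ 3 := by ring
  · intro φ hφ
    have hφ' : k * (8 * C * Real.log n ^ (3 / 2 : ℝ)) ≤ |φ x| := hφ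
    show k * (C * Real.log ((2 * n : ℕ) : ℝ) ^ (3 / 2 : ℝ)) ≤ |φ x|
    refine le_trans ?_ hφ'
    have h5 : Real.log ((2 * n : ℕ) : ℝ) ^ (3 / 2 : ℝ) ≤ 8 * Real.log n ^ (3 / 2 : ℝ) := by
      calc Real.log ((2 * n : ℕ) : ℝ) ^ (3 / 2 : ℝ) ≤ (2 * Real.log n) ^ (3 / 2 : ℝ) :=
            Real.rpow_le_rpow hlog2 hlog (by norm_num)
        _ = 2 ^ (3 / 2 : ℝ) * Real.log n ^ (3 / 2 : ℝ) := Real.mul_rpow (by norm_num) hlog0.le
        _ ≤ 8 * Real.log n ^ (3 / 2 : ℝ) := by
            gcongr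
            calc (2 : ℝ) ^ (3 / 2 : ℝ) ≤ 2 ^ (3 : ℝ) :=
                  Real.rpow_le_rpow_of_exponent_le (by norm_num) (by norm_num)
              _ = 8 := by norm_num
    have hk : (0 : ℝ) ≤ k := Nat.cast_nonneg k
    calc (k : ℝ) * (C * Real.log ((2 * n : ℕ) : ℝ) ^ (3 / 2 : ℝ))
        ≤ k * (C * (8 * Real.log n ^ (3 / 2 : ℝ))) := by gcongr
      _ = _ := by ring

end Pool.Agent.Results.MP_5fc650_pr.PinnedTorus
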