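import Pool.Agent.Lib_helper69.HM.T1

/-!
# Gradient fields on the torus with mass: increments at most `C log |x|`, uniformly in the mass

For every even log-concave edge weight `ρ = exp (-U)` (hammock potential included) the field on the
torus with density `∏ ρ (φ y - φ x) ∏ exp (-m² φ x² / 2)` satisfies, for every `m > 0`, every `x` and
all large tori, `E (φ x - φ 0)² ≤ C log (2 + |x|)`, with `C` independent of the mass `m`.
-/

set_option autoImplicit false

namespace Pool.Agent.Results.MP_5fc650_pr.TorusWithMass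

open MeasureTheory ProbabilityTheory Pool.Agent.HM
open scoped ENNReal

/-- The vertices of the torus with side `2 N + 2`. -/
abbrev Torus (N : ℕ) : Type := ZMod (2 * N + 2) × ZMod (2 * N + 2)

/-- `∏ ρ (φ y - φ x) ∏ exp (-m² φ x² / 2)`, the first product over the edges of the torus. -/
noncomputable def density (ρ : ℝ → ℝ) (m : ℝ) (N : ℕ) (φ : Torus N → ℝ) : ℝ≥0∞ :=
  (∏ x : Torus N, ENNReal.ofReal (ρ (φ (x + (1, 0)) - φ x)) *
    ENNReal.ofReal (ρ (φ (x + (0, 1)) - φ x))) *
    ∏ x : Torus N, ENNReal.ofReal (Real.exp (-(m ^ 2 * φ x ^ 2 / 2)))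

/-- The normalised measure with this density with respect to Lebesgue measure. -/
noncomputable def field (ρ : ℝ → ℝ) (m : ℝ) (N : ℕ) : Measure (Torus N → ℝ) :=
  (∫⁻ φ, density ρ m N φ)⁻¹ • (volume : Measure (Torus N → ℝ)).withDensity (density ρ m N)

theorem density_eq (ρ : ℝ → ℝ) (m : ℝ) (N : ℕ) :
    density ρ m N = wt ρ m (stpT N false) Finset.univ := by
  funext φ
  unfold density wt
  rw [edges_univ]
  congr 1
  have h1 : ∏ p : Tor N × Bool, ENNReal.ofReal (ρ (φ (p.1 + stpT N false p.2) - φ p.1)) =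
      ∏ x : Tor N, ∏ i : Bool, ENNReal.ofReal (ρ (φ (x + stpT N false i) - φ x)) :=
    Fintype.prod_prod_type _
  rw [h1]
  refine Finset.prod_congr rfl fun x _ => ?_
  rw [Fintype.prod_bool, mul_comm]
  rfl

theorem field_eq {ρ : ℝ → ℝ} (hρ : EdgeWeight ρ) (m : ℝ) (N : ℕ) :
    field ρ m N = muT ρ m N false := by
  have hw : Measurable (wt ρ m (stpT N false) Finset.univ) := (nice_wt hρ m _ _).meas
  refine Measure.ext fun S hS => ?_
  unfold field muT
  rw [gib_apply hw _ _ hS, Measure.smul_apply, withDensity_apply _ hS, smul_eq_mul, density_eq]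
  rw [← lintegral_indicator hS]
  congr 1
  · congr 1
    exact lintegral_eq_lmarginal_univ (μ := fun _ : Torus N => (volume : Measure ℝ)) 0
  · exact lintegral_eq_lmarginal_univ (μ := fun _ : Torus N => (volume : Measure ℝ)) 0

theorem result : ∀ ρ : ℝ → ℝ, EdgeWeight ρ → ∃ C : ℝ, ∀ m : ℝ, 0 < m → ∀ a b : ℤ,
    ∃ N₀ : ℕ, ∀ N ≥ N₀, IsProbabilityMeasure (field ρ m N) ∧
      Integrable (fun φ : Torus N → ℝ => (φ ((a : ZMod (2 * N + 2)), (b : ZMod (2 * N + 2))) -
        φ 0) ^ 2) (field ρ m N) ∧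
      ∫ φ, (φ ((a : ZMod (2 * N + 2)), (b : ZMod (2 * N + 2))) - φ 0) ^ 2 ∂field ρ m N ≤
        C * Real.log (2 + |(a : ℝ)| + |(b : ℝ)|) := by
  intro ρ hρ
  obtain ⟨C, hC, hT⟩ := torus_log hρ
  refine ⟨C, fun m hm a b => ?_⟩
  obtain ⟨N₀, hN₀⟩ := hT m hm (a, b)
  refine ⟨N₀, fun N hN => ?_⟩
  have e1 : proj N false (a, b) = ((a : ZMod (2 * N + 2)), (b : ZMod (2 * N + 2))) := by
    simp [proj, stpT]
  rw [field_eq hρ]
  refine ⟨muT_prob hρ hm N false, ?_, ?_⟩
  · have h1 := muT_integrable_pow hρ hm N false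
      ((a : ZMod (2 * N + 2)), (b : ZMod (2 * N + 2))) 2
    have h2 := muT_integrable_pow hρ hm N false 0 2
    refine Integrable.mono' ((h1.const_mul 2).add (h2.const_mul 2)) ?_ ?_
    · have hm1 : Measurable fun φ : Torus N → ℝ =>
          (φ ((a : ZMod (2 * N + 2)), (b : ZMod (2 * N + 2))) - φ 0) ^ 2 := by fun_prop
      exact hm1.aestronglyMeasurable
    · refine Filter.Eventually.of_forall fun f => ?_
      rw [Real.norm_eq_abs, abs_of_nonneg (sq_nonneg _)]
      simp only [Pi.add_apply]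
      nlinarith [sq_nonneg (f ((a : ZMod (2 * N + 2)), (b : ZMod (2 * N + 2))) + f 0)]
  · have h3 := hN₀ N hN
    rw [e1] at h3
    exact h3

end Pool.Agent.Results.MP_5fc650_pr.TorusWithMass
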