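import Pool.Agent.Lib_helper69.HM.Fin
import Pool.Agent.Lib_helper12.HM.M5b

/-!
# Gradient fields with zero boundary values: variance at most `C (log n) ^ 3`

For every even log-concave edge weight `ρ = exp (-U)` (the potential `U` is even and convex, it may
take the value `∞`: hammock potential included), the field `φ` on a finite set `Ω` of the box
`{-n, …, n}²` with zero boundary values and density `∏ ρ (φ y - φ x)` over the edges which touch
`Ω` satisfies `Var φ x ≤ C (log n) ^ 3`, with `C` depending on `ρ` only.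
-/

set_option autoImplicit false

namespace Pool.Agent.Results.MP_5fc650_pr.ZeroBoundary

open MeasureTheory ProbabilityTheory Pool.Agent.HM
open scoped ENNReal

/-- The field on `Ω`, continued by `0` to the square lattice. -/
noncomputable def extend (Ω : Finset (ℤ × ℤ)) (φ : Ω → ℝ) (x : ℤ × ℤ) : ℝ :=
  if h : x ∈ Ω then φ ⟨x, h⟩ else 0

/-- The product of `ρ (φ y - φ x)` over all edges `{x, y}` of the square lattice with at least one
end in `Ω`; `φ` is `0` outside of `Ω`. -/
noncomputable def density (ρ : ℝ → ℝ) (Ω : Finset (ℤ × ℤ)) (φ : Ω → ℝ) : ℝ≥0∞ :=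
  ∏ p ∈ edges zstp Ω, ENNReal.ofReal (ρ (extend Ω φ (p.1 + zstp p.2) - extend Ω φ p.1))

/-- The normalised measure with this density with respect to Lebesgue measure on `Ω → ℝ`. -/
noncomputable def field (ρ : ℝ → ℝ) (Ω : Finset (ℤ × ℤ)) : Measure (Ω → ℝ) :=
  (∫⁻ φ, density ρ Ω φ)⁻¹ • (volume : Measure (Ω → ℝ)).withDensity (density ρ Ω)

/-- The hammock weight. -/
noncomputable def hammock (t : ℝ) : ℝ := if |t| ≤ 1 then 1 else 0

theorem hammock_isWeight : EdgeWeight hammock := by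
  have h01 : ∀ t, hammock t = 1 ∨ hammock t = 0 := by
    intro t
    unfold hammock
    split_ifs <;> simp
  refine ⟨fun t => ?_, by simp [hammock], fun t => by simp [hammock], ?_, ⟨1, one_pos, by
    simp [hammock]⟩, ⟨2, by norm_num [hammock]⟩⟩
  · rcases h01 t with h | h <;> rw [h] <;> norm_num
  · intro s t a b ha hb hab
    rcases ha.eq_or_lt with rfl | ha'
    · have : b = 1 := by linarith
      subst this
      simp
    rcases hb.eq_or_lt with rfl | hb'
    · have : a = 1 := by linarith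
      subst this
      simp
    by_cases hs : |s| ≤ 1
    · by_cases ht : |t| ≤ 1
      · have h1 : |a * s + b * t| ≤ 1 := by
          calc |a * s + b * t| ≤ |a * s| + |b * t| := abs_add_le _ _
            _ = a * |s| + b * |t| := by rw [abs_mul, abs_mul, abs_of_pos ha', abs_of_pos hb']
            _ ≤ a * 1 + b * 1 := by gcongr
            _ = 1 := by linarith
        have e1 : hammock s = 1 := if_pos hs
        have e2 : hammock t = 1 := if_pos ht
        have e3 : hammock (a * s + b * t) = 1 := if_pos h1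
        rw [e1, e2, e3]
        simp
      · have e2 : hammock t = 0 := if_neg ht
        rw [e2, Real.zero_rpow hb'.ne', mul_zero]
        rcases h01 (a * s + b * t) with h | h <;> rw [h]
        norm_num
    · have e2 : hammock s = 0 := if_neg hs
      rw [e2, Real.zero_rpow ha'.ne', zero_mul]
      rcases h01 (a * s + b * t) with h | h <;> rw [h]
      norm_num

theorem field_eq (ρ : ℝ → ℝ) (Ω : Finset (ℤ × ℤ)) : field ρ Ω = fieldOn (wt ρ 0 zstp Ω) Ω := by
  have h1 : ∀ φ : Ω → ℝ, wt ρ 0 zstp Ω (Function.updateFinset (0 : ℤ × ℤ → ℝ) Ω φ) =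
      density ρ Ω φ := by
    intro φ
    rw [wt_zero]
    rfl
  unfold field fieldOn
  simp only [h1]

theorem result :
    EdgeWeight hammock ∧
    ∀ ρ : ℝ → ℝ, EdgeWeight ρ → ∃ C : ℝ, ∀ n : ℕ, 2 ≤ n → ∀ Ω : Finset (ℤ × ℤ), Ω ⊆ box n →
      IsProbabilityMeasure (field ρ Ω) ∧
      ∀ x : Ω, MemLp (fun φ : Ω → ℝ => φ x) 2 (field ρ Ω) ∧
        ∫ φ, φ x ∂field ρ Ω = 0 ∧
        Var[fun φ : Ω → ℝ => φ x; field ρ Ω] ≤ C * Real.log n ^ 3 := by
  refine ⟨hammock_isWeight, fun ρ hρ => ?_⟩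
  obtain ⟨C, hC, hD⟩ := dirichlet hρ
  refine ⟨400 * C ^ 2, fun n hn Ω hΩ => ?_⟩
  have hw : Nice (wt ρ 0 zstp Ω) := nice_wt hρ 0 zstp Ω
  have h0 : lm Ω (wt ρ 0 zstp Ω) 0 ≠ 0 := (lm_wt_pos_const hρ 0 zstp Ω 0).ne'
  have h1 : lm Ω (wt ρ 0 zstp Ω) 0 ≠ ∞ := (lm_wt_lt_top_lattice hρ 0 Ω 0).ne
  rw [field_eq]
  refine ⟨fieldOn_prob hw.meas Ω h0 h1, fun x => ?_⟩
  have hl : 0 < Real.log n := Real.log_pos (by exact_mod_cast hn)
  have h2 := hD n hn Ω hΩ x x.2
  have ha : 0 < C * Real.log n ^ (3 / 2 : ℝ) := by positivity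
  have h3 := second_of_tail hw Ω h0 h1 (x : ℤ × ℤ) ha (h2.trans (by
    gcongr
    norm_num))
  have e1 : 400 * (C * Real.log n ^ (3 / 2 : ℝ)) ^ 2 = 400 * C ^ 2 * Real.log n ^ 3 := by
    rw [mul_pow, ← Real.rpow_natCast (Real.log n ^ (3 / 2 : ℝ)) 2, ← Real.rpow_mul hl.le]
    norm_num
    ring
  rw [e1] at h3
  exact fieldOn_var hw Ω h0 h1 x (by positivity) h3

end Pool.Agent.Results.MP_5fc650_pr.ZeroBoundary
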